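import Pool.Agent.helper47.SC.Spec

open scoped Topology ContDiff
open Set Filter Metric MeasureTheory

set_option linter.unusedVariables false

namespace Pool.Agent.SC

theorem YYC_GG (s : ℕ → C3) (m : ℕ → ℕ) (x y u : ℂ) (h : ‖y‖ ≤ ‖x‖) :
    ∀ k, ‖GG s m k (y, u)‖ ≤ ‖GG s m k (x, u)‖ := by
  intro k
  induction k with
  | zero => exact h
  | succ k ih =>
    show ‖(GG s m k (y, u)) ^ (m k) * (u - (s k).1)‖ ≤ ‖(GG s m k (x, u)) ^ (m k) * (u - (s k).1)‖
    rw [norm_mul, norm_mul, norm_pow, norm_pow]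
    exact mul_le_mul_of_nonneg_right (pow_le_pow_left₀ (norm_nonneg _) ih _) (norm_nonneg _)

theorem YYC (h1 : NSQ_stmt) (h2 : EPS_stmt) (h3 : GGF_stmt) (h4 : QAN_stmt) : YYC_stmt := by
  intro s m hm hs
  obtain ⟨-, -, -, hsmul, hzero, hnn, hfar, -, -, -, -, -⟩ := h1
  have heps := (h2 m hm).1
  have hn0 : nsq (0 : C3) = 0 := (hzero 0).2 rfl
  -- products are nonnegative
  have hprod : ∀ (k : ℕ) (w : C3),
      0 ≤ ∏ i ∈ Finset.range k, (nsq (w - s i)) ^ (eps m i / 2) := fun k w =>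
    Finset.prod_nonneg fun i _ => Real.rpow_nonneg (hnn _) _
  have hO : ((0 : ℂ), (0 : C3)) ∈ YY s m := by
    refine ⟨⟨?_, 0, ?_⟩, ?_, 0, ?_⟩
    · show ‖(0 : ℂ)‖ < 1 / 4
      rw [norm_zero]; norm_num
    · show ‖(0 : ℂ)‖ < 1
      rw [norm_zero]; norm_num
    · show nsq (0 : C3) < 1 / 4
      rw [hn0]; norm_num
    · show Real.sqrt (1 + ‖(0 : ℂ)‖ ^ 2) * (∏ i ∈ Finset.range 0, (nsq ((0 : C3) - s i)) ^ (eps m i / 2))
        * Real.exp (64 * nsq (0 : C3)) < Real.exp 3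
      rw [hn0, norm_zero, Finset.prod_range_zero, mul_zero]
      have h5 : Real.sqrt (1 + (0 : ℝ) ^ 2) = 1 := by
        rw [show (1 + (0 : ℝ) ^ 2) = 1 by norm_num, Real.sqrt_one]
      rw [h5, one_mul, one_mul]
      exact Real.exp_lt_exp.2 (by norm_num)
  refine ⟨⟨_, hO⟩, isPreconnected_of_forall ((0 : ℂ), (0 : C3)) ?_⟩
  rintro ⟨x, w⟩ ⟨⟨hw1, k₁, hk₁⟩, hw2, k₂, hk₂⟩
  have hw1' : ‖w.1‖ < 1 / 4 := hw1
  have hk₁' : ‖GG s m k₁ (x, w.1)‖ < 1 := hk₁
  have hw2' : nsq w < 1 / 4 := hw2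
  have hk₂' : Real.sqrt (1 + ‖x‖ ^ 2) * (∏ i ∈ Finset.range k₂, (nsq (w - s i)) ^ (eps m i / 2))
        * Real.exp (64 * nsq w) < Real.exp 3 := hk₂
  -- (a)
  have ha : ∀ r ∈ Icc (0 : ℝ) 1, ((r • x, w) : C4) ∈ YY s m := by
    rintro r ⟨hr0, hr1⟩
    have hrx : ‖r • x‖ ≤ ‖x‖ := by
      rw [norm_smul, Real.norm_of_nonneg hr0]
      exact mul_le_of_le_one_left (norm_nonneg _) hr1
    refine ⟨⟨hw1', k₁, ?_⟩, hw2', k₂, ?_⟩
    · exact (YYC_GG s m x (r • x) w.1 hrx k₁).trans_lt hk₁'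
    · refine lt_of_le_of_lt ?_ hk₂'
      show Real.sqrt (1 + ‖r • x‖ ^ 2) *
        (∏ i ∈ Finset.range k₂, (nsq (w - s i)) ^ (eps m i / 2)) * Real.exp (64 * nsq w) ≤ _
      refine mul_le_mul_of_nonneg_right (mul_le_mul_of_nonneg_right ?_ (hprod _ _))
        (Real.exp_pos _).le
      refine Real.sqrt_le_sqrt ?_
      have := pow_le_pow_left₀ (norm_nonneg (r • x)) hrx 2
      linarith
  -- (b)
  have hb : ∀ r ∈ Icc (0 : ℝ) 1, (((0 : ℂ), r • w) : C4) ∈ YY s m := by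
    rintro r ⟨hr0, hr1⟩
    have hr2 : r ^ 2 ≤ 1 := pow_le_one₀ hr0 hr1
    have hle : nsq (r • w) ≤ nsq w := by
      rw [hsmul]
      exact mul_le_of_le_one_left (hnn _) hr2
    refine ⟨⟨?_, 0, ?_⟩, hle.trans_lt hw2', ?_⟩
    · show ‖(r • w).1‖ < 1 / 4
      rw [Prod.smul_fst, norm_smul, Real.norm_of_nonneg hr0]
      exact (mul_le_of_le_one_left (norm_nonneg _) hr1).trans_lt hw1'
    · show ‖(0 : ℂ)‖ < 1
      rw [norm_zero]; norm_num
    · by_cases hc : nsq (r • w) < 3 / 64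
      · refine ⟨0, ?_⟩
        show Real.sqrt (1 + ‖(0 : ℂ)‖ ^ 2) * (∏ i ∈ Finset.range 0, (nsq (r • w - s i)) ^ (eps m i / 2))
          * Real.exp (64 * nsq (r • w)) < Real.exp 3
        have h5 : Real.sqrt (1 + (0 : ℝ) ^ 2) = 1 := by
          rw [show (1 + (0 : ℝ) ^ 2) = 1 by norm_num, Real.sqrt_one]
        rw [norm_zero, Finset.prod_range_zero, h5, one_mul, one_mul]
        exact Real.exp_lt_exp.2 (by linarith)
      · refine ⟨k₂, lt_of_le_of_lt ?_ hk₂'⟩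
        have hc' : 3 / 64 ≤ nsq (r • w) := not_lt.1 hc
        have hrpos : 0 < r := by
          rcases hr0.eq_or_lt with h | h
          · exfalso
            rw [← h, zero_smul, hn0] at hc'
            norm_num at hc'
          · exact h
        have hinv : 1 ≤ r⁻¹ := (one_le_inv₀ hrpos).2 hr1
        have hpt : ∀ i, nsq (r • w - s i) ≤ nsq (w - s i) := by
          intro i
          have h6 := hfar r⁻¹ (r • w) (s i) hinv ((hs i).trans (by linarith))
          rwa [smul_smul, inv_mul_cancel₀ hrpos.ne', one_smul] at h6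
        show Real.sqrt (1 + ‖(0 : ℂ)‖ ^ 2) * (∏ i ∈ Finset.range k₂, (nsq (r • w - s i)) ^ (eps m i / 2))
          * Real.exp (64 * nsq (r • w)) ≤ _
        refine mul_le_mul (mul_le_mul ?_ ?_ (hprod _ _) (Real.sqrt_nonneg _)) ?_
          (Real.exp_pos _).le (mul_nonneg (Real.sqrt_nonneg _) (hprod _ _))
        · refine Real.sqrt_le_sqrt ?_
          rw [norm_zero]
          have := sq_nonneg ‖x‖
          linarith
        · exact Finset.prod_le_prod (fun i _ => Real.rpow_nonneg (hnn _) _) fun i _ =>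
            Real.rpow_le_rpow (hnn _) (hpt i) (by have := heps i; linarith)
        · exact Real.exp_le_exp.2 (by linarith)
  refine ⟨(fun r : ℝ => ((r • x, w) : C4)) '' Icc 0 1 ∪ (fun r : ℝ => (((0 : ℂ), r • w) : C4)) '' Icc 0 1,
    ?_, ?_, ?_, ?_⟩
  · rintro z (⟨r, hr, rfl⟩ | ⟨r, hr, rfl⟩)
    · exact ha r hr
    · exact hb r hr
  · exact Or.inr ⟨0, ⟨le_rfl, zero_le_one⟩, by simp⟩
  · exact Or.inl ⟨1, ⟨zero_le_one, le_rfl⟩, by simp⟩
  · refine IsPreconnected.union ((0 : ℂ), w) ?_ ?_ ?_ ?_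
    · exact ⟨0, ⟨le_rfl, zero_le_one⟩, by simp⟩
    · exact ⟨1, ⟨zero_le_one, le_rfl⟩, by simp⟩
    · refine isPreconnected_Icc.image _ (Continuous.continuousOn ?_)
      exact (continuous_id.smul continuous_const).prodMk continuous_const
    · refine isPreconnected_Icc.image _ (Continuous.continuousOn ?_)
      exact continuous_const.prodMk (continuous_id.smul continuous_const)

end Pool.Agent.SC
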